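import Pool.Agent.H152R3.KD.Stmts

/-! Task LIN of project KD. -/

set_option autoImplicit false

open MeasureTheory Filter Topology Set

namespace Pool.Agent.H152R3.KD.LIN

theorem sum_eq (hB : TaskBAS) (a b D γ x : ℝ) (ha : 0 < a) (hab : 0 < a + b) (M : ℕ) :
    ∑ j ∈ Finset.range M, XX a b D γ (x + j * γ) 1 = XX a b D γ x M := by
  obtain ⟨h0, -, hc, -⟩ := hB a b D γ x ha hab
  induction M with
  | zero => simpa using h0.symm
  | succ M ih =>
    rw [Finset.sum_range_succ, ih]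
    have := hc (M : ℤ) 1
    push_cast at this ⊢
    rw [this]

theorem neg_eq (hB : TaskBAS) (a b D γ x : ℝ) (ha : 0 < a) (hab : 0 < a + b) (M : ℕ) :
    XX a b D γ x (-(M : ℤ)) = -XX a b D γ (x + (-(M : ℤ) : ℤ) * γ) M := by
  obtain ⟨h0, -, hc, -⟩ := hB a b D γ x ha hab
  have := hc (-(M : ℤ)) M
  rw [neg_add_cancel, h0] at this
  linarith

theorem XX_one (a b D γ θ : ℝ) (hθ : θ ∈ Ico (0 : ℝ) 1) :
    XX a b D γ θ 1 = a + b * (Ico (0 : ℝ) D).indicator (fun _ => (1 : ℝ)) θ := by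
  have h1 : Finset.Ico (0 : ℤ) 1 = {0} := rfl
  have h2 : Finset.Ico (1 : ℤ) 0 = ∅ := rfl
  have h3 : hh D γ θ 1 = hit D γ θ 0 := by
    rw [hh, h1, h2]; simp
  rw [XX, h3, hit]
  have h4 : Int.fract (θ + ((0 : ℤ) : ℝ) * γ) = θ := by
    rw [Int.cast_zero, zero_mul, add_zero]
    exact Int.fract_eq_self.2 ⟨hθ.1, hθ.2⟩
  rw [h4]
  by_cases h : θ < D
  · rw [if_pos h, Set.indicator_of_mem (show θ ∈ Ico (0 : ℝ) D from ⟨hθ.1, h⟩)]
    push_cast; ring
  · rw [if_neg h, Set.indicator_of_notMem (fun hh : θ ∈ Ico (0 : ℝ) D => h hh.2)]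
    push_cast; ring

theorem integral_one (a b D γ : ℝ) (h0 : 0 < D) (h1 : D < 1) :
    ∫ θ in Ico (0 : ℝ) 1, ((XX a b D γ θ 1 : ℝ) : ℂ) = ((a + b * D : ℝ) : ℂ) := by
  rw [integral_complex_ofReal]
  congr 1
  have e : ∫ θ in Ico (0 : ℝ) 1, XX a b D γ θ 1 =
      ∫ θ in Ico (0 : ℝ) 1, (a + b * (Ico (0 : ℝ) D).indicator (fun _ => (1 : ℝ)) θ) :=
    setIntegral_congr_fun measurableSet_Ico (fun θ hθ => XX_one a b D γ θ hθ)
  rw [e]
  have hi : Integrable ((Ico (0 : ℝ) D).indicator (fun _ => (1 : ℝ)))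
      (volume.restrict (Ico (0 : ℝ) 1)) :=
    (integrable_const (1 : ℝ)).indicator measurableSet_Ico
  rw [integral_add (integrable_const a) (hi.const_mul b), integral_const_mul,
    integral_indicator measurableSet_Ico, Measure.restrict_restrict measurableSet_Ico]
  have h2 : Ico (0 : ℝ) D ∩ Ico (0 : ℝ) 1 = Ico (0 : ℝ) D :=
    inter_eq_left.2 (Ico_subset_Ico_right h1.le)
  rw [h2]
  simp [h0.le]

end Pool.Agent.H152R3.KD.LIN

namespace Pool.Agent.H152R3.KD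

theorem taskLIN : TaskLIN := by
  intro hB hW a b D γ hyp ε hε
  obtain ⟨M₀, hM⟩ := hW hB a b D γ hyp (fun t : ℝ => (t : ℂ)) Complex.continuous_ofReal 1 ε hε
  have key : ∀ M : ℕ, M₀ ≤ M → ∀ x : ℝ, |XX a b D γ x M - (a + b * D) * M| ≤ ε * M := by
    intro M hMM x
    have h := hM M hMM x
    rw [LIN.integral_one a b D γ hyp.D0 hyp.D1, ← Complex.ofReal_sum,
      LIN.sum_eq hB a b D γ x hyp.a0 hyp.ab0 M] at h
    rw [← Complex.ofReal_natCast, ← Complex.ofReal_mul, ← Complex.ofReal_sub,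
      Complex.norm_real, Real.norm_eq_abs] at h
    rw [mul_comm (a + b * D)]
    exact h
  refine ⟨M₀, fun n hn x => ?_⟩
  rcases le_total 0 n with h | h
  · lift n to ℕ using h
    have hn' : M₀ ≤ n := by
      rw [Nat.abs_cast] at hn
      exact_mod_cast hn
    have := key n hn' x
    simpa using this
  · obtain ⟨m, rfl⟩ : ∃ m : ℕ, n = -(m : ℤ) := ⟨n.natAbs, by omega⟩
    have hn' : M₀ ≤ m := by
      rw [abs_neg, Nat.abs_cast] at hn
      exact_mod_cast hn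
    rw [LIN.neg_eq hB a b D γ x hyp.a0 hyp.ab0 m]
    have := key m hn' (x + (-(m : ℤ) : ℤ) * γ)
    have e1 : -XX a b D γ (x + (-(m : ℤ) : ℤ) * γ) m - (a + b * D) * ((-(m : ℤ) : ℤ) : ℝ) =
        -(XX a b D γ (x + (-(m : ℤ) : ℤ) * γ) m - (a + b * D) * m) := by
      push_cast; ring
    rw [e1, abs_neg]
    refine this.trans (le_of_eq ?_)
    push_cast
    rw [abs_neg, Nat.abs_cast]

end Pool.Agent.H152R3.KD
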